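import Pool.Agent.P.MP_5333ad_co.Han

/-! Counting boundary edges line by line. -/

open Finset

namespace Pool.Agent.IsoStab

variable {d : ℕ}

/-- Number of boundary edges at `x` in direction `i`. -/
noncomputable def ed (S : Finset (Fin d → ℤ)) (i : Fin d) (x : Fin d → ℤ) : ℝ :=
  (if Function.update x i (x i + 1) ∈ S then 0 else 1) +
    (if Function.update x i (x i - 1) ∈ S then 0 else 1)

/-- Number of boundary edges on the line through `z` in direction `i`. -/
noncomputable def bl (S : Finset (Fin d → ℤ)) (i : Fin d) (z : Fin d → ℤ) : ℝ :=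
  ∑ x ∈ cls S {i} z, ed S i x

lemma adj_update (x : Fin d → ℤ) (i : Fin d) (s : ℤ) (hs : |s| = 1) :
    (latticeGraph d).Adj x (Function.update x i (x i + s)) := by
  change ∑ j, |x j - Function.update x i (x i + s) j| = 1
  rw [← add_sum_erase univ _ (mem_univ i)]
  have h1 : ∑ j ∈ univ.erase i, |x j - Function.update x i (x i + s) j| = 0 := by
    refine sum_eq_zero fun j hj => ?_
    rw [Function.update_of_ne (mem_erase.1 hj).1]
    simp
  rw [h1]
  simp [hs]

lemma sum_ed_le (S : Finset (Fin d → ℤ)) (hfin : (edgeBoundary S).Finite) :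
    ∑ i, ∑ x ∈ S, ed S i x ≤ (edgeBoundary S).ncard := by
  classical
  set A : Finset (Fin d × (Fin d → ℤ) × ℤ) :=
    (univ ×ˢ S ×ˢ ({1, -1} : Finset ℤ)).filter
      fun p => Function.update p.2.1 p.1 (p.2.1 p.1 + p.2.2) ∉ S with hA
  have h1 : ∑ i, ∑ x ∈ S, ed S i x = A.card := by
    rw [hA, card_filter, sum_product]
    push_cast
    refine sum_congr rfl fun i _ => ?_
    rw [sum_product]
    refine sum_congr rfl fun x _ => ?_
    rw [sum_pair (by norm_num)]
    unfold ed
    simp only [← sub_eq_add_neg]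
    split_ifs <;> simp_all
  set φ : Fin d × (Fin d → ℤ) × ℤ → Sym2 (Fin d → ℤ) :=
    fun p => s(p.2.1, Function.update p.2.1 p.1 (p.2.1 p.1 + p.2.2)) with hφ
  have hmem : ∀ p ∈ A, p.2.1 ∈ S ∧ (p.2.2 = 1 ∨ p.2.2 = -1) ∧
      Function.update p.2.1 p.1 (p.2.1 p.1 + p.2.2) ∉ S := by
    intro p hp
    rw [hA, mem_filter, mem_product, mem_product] at hp
    refine ⟨hp.1.2.1, ?_, hp.2⟩
    simpa using hp.1.2.2
  have hinj : Set.InjOn φ A := by
    rintro ⟨i, x, s⟩ hp ⟨j, y, t⟩ hq h
    obtain ⟨a1, a2, a3⟩ := hmem _ hp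
    obtain ⟨b1, b2, b3⟩ := hmem _ hq
    simp only [hφ, Sym2.eq_iff] at h a1 a2 a3 b1 b2 b3
    rcases h with ⟨h1, h2⟩ | ⟨h1, h2⟩
    · subst h1
      have h3 := congrFun h2 i
      by_cases hij : i = j
      · subst hij
        simp only [Function.update_self] at h3
        have : s = t := by omega
        rw [this]
      · rw [Function.update_self, Function.update_of_ne hij] at h3
        omega
    · exact absurd (h1 ▸ a1) b3
  have hsub : ((A.image φ : Finset (Sym2 (Fin d → ℤ))) : Set (Sym2 (Fin d → ℤ))) ⊆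
      edgeBoundary S := by
    intro e he
    obtain ⟨p, hp, rfl⟩ := mem_image.1 (mem_coe.1 he)
    obtain ⟨a1, a2, a3⟩ := hmem _ hp
    refine ⟨?_, _, _, rfl, a1, a3⟩
    rw [hφ, SimpleGraph.mem_edgeSet]
    refine adj_update _ _ _ ?_
    rcases a2 with h | h <;> simp [h]
  have h2 := Set.ncard_le_ncard hsub hfin
  rw [Set.ncard_coe_finset, card_image_of_injOn hinj] at h2
  rw [h1]
  exact_mod_cast h2

lemma sum_bl_div (S : Finset (Fin d → ℤ)) (i : Fin d) :
    ∑ z ∈ S, bl S i z / g S {i} z = ∑ x ∈ S, ed S i x := by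
  have h := swap_sum S {i} (fun x => ed S i x / g S {i} x)
  have h1 : ∑ x ∈ S, g S {i} x * (ed S i x / g S {i} x) = ∑ x ∈ S, ed S i x :=
    sum_congr rfl fun x hx => by
      have := g_pos (T := {i}) hx
      field_simp
  rw [← h1, h]
  refine sum_congr rfl fun z _ => ?_
  unfold bl
  rw [sum_div]
  refine sum_congr rfl fun x hx => ?_
  rw [g_congr (x := x) (z := z) (mem_cls.1 hx).2]

lemma coord_injOn (S : Finset (Fin d → ℤ)) (i : Fin d) (z : Fin d → ℤ) :
    Set.InjOn (fun x : Fin d → ℤ => x i) (cls S {i} z) := by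
  intro x hx y hy h
  funext k
  by_cases hk : k = i
  · subst hk
    exact h
  · have hk' : k ∉ ({i} : Finset (Fin d)) := by simpa using hk
    exact ((mem_cls.1 hx).2 k hk').trans ((mem_cls.1 hy).2 k hk').symm

lemma card_lineSet (S : Finset (Fin d → ℤ)) (i : Fin d) (z : Fin d → ℤ) :
    ((lineSet S i z).card : ℝ) = g S {i} z := by
  unfold lineSet g
  rw [card_image_of_injOn (coord_injOn S i z)]

lemma update_mem_iff {S : Finset (Fin d → ℤ)} {i : Fin d} {z x : Fin d → ℤ}
    (hx : x ∈ cls S {i} z) (t : ℤ) : Function.update x i t ∈ S ↔ t ∈ lineSet S i z := by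
  constructor
  · intro h
    refine mem_image.2 ⟨Function.update x i t, mem_cls.2 ⟨h, fun k hk => ?_⟩, by simp⟩
    rw [Function.update_of_ne (by simpa using hk)]
    exact (mem_cls.1 hx).2 k hk
  · intro h
    obtain ⟨y, hy, rfl⟩ := mem_image.1 h
    have : Function.update x i (y i) = y := by
      funext k
      by_cases hk : k = i
      · subst hk
        simp
      · have hk' : k ∉ ({i} : Finset (Fin d)) := by simpa using hk
        rw [Function.update_of_ne hk]
        exact ((mem_cls.1 hx).2 k hk').trans ((mem_cls.1 hy).2 k hk').symm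
    rw [this]
    exact (mem_cls.1 hy).1

lemma bl_eq (S : Finset (Fin d → ℤ)) (i : Fin d) (z : Fin d → ℤ) :
    bl S i z = (((lineSet S i z).filter fun t => t + 1 ∉ lineSet S i z).card : ℝ) +
      (((lineSet S i z).filter fun t => t - 1 ∉ lineSet S i z).card : ℝ) := by
  unfold bl
  have h1 : ∀ x ∈ cls S {i} z, ed S i x =
      (if x i + 1 ∉ lineSet S i z then (1 : ℝ) else 0) +
        (if x i - 1 ∉ lineSet S i z then (1 : ℝ) else 0) := by
    intro x hx
    unfold ed
    simp only [update_mem_iff hx]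
    split_ifs <;> simp_all
  rw [sum_congr rfl h1, card_filter, card_filter]
  push_cast
  rw [← sum_add_distrib]
  conv_rhs => unfold lineSet
  rw [sum_image (coord_injOn S i z)]
  rfl

lemma interval_of_few (J : Finset ℤ) (hJ : J.Nonempty) :
    1 ≤ (J.filter fun t => t + 1 ∉ J).card ∧ 1 ≤ (J.filter fun t => t - 1 ∉ J).card ∧
      ((J.filter fun t => t + 1 ∉ J).card ≤ 1 → ∃ c : ℤ, J = Ico c (c + J.card)) := by
  have hmax : J.max' hJ ∈ J.filter fun t => t + 1 ∉ J := by
    refine mem_filter.2 ⟨max'_mem _ _, fun h => ?_⟩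
    have := le_max' J _ h
    omega
  have hmin : J.min' hJ ∈ J.filter fun t => t - 1 ∉ J := by
    refine mem_filter.2 ⟨min'_mem _ _, fun h => ?_⟩
    have := min'_le J _ h
    omega
  refine ⟨card_pos.2 ⟨_, hmax⟩, card_pos.2 ⟨_, hmin⟩, fun h => ?_⟩
  have hstep : ∀ t ∈ J, t < J.max' hJ → t + 1 ∈ J := by
    intro t ht hlt
    by_contra hn
    have := card_le_one.1 h t (mem_filter.2 ⟨ht, hn⟩) _ hmax
    omega
  have hall : ∀ n : ℕ, J.min' hJ + n ≤ J.max' hJ → J.min' hJ + n ∈ J := by
    intro n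
    induction n with
    | zero => intro _; simpa using min'_mem J hJ
    | succ n ih =>
      intro hn
      push_cast at hn ⊢
      have := hstep _ (ih (by omega)) (by omega)
      rwa [add_assoc] at this
  have hJeq : J = Ico (J.min' hJ) (J.max' hJ + 1) := by
    ext t
    rw [mem_Ico]
    constructor
    · intro ht
      have := le_max' J _ ht
      have := min'_le J _ ht
      omega
    · rintro ⟨h1, h2⟩
      have h3 := hall (t - J.min' hJ).toNat (by omega)
      have h4 : J.min' hJ + ((t - J.min' hJ).toNat : ℤ) = t := by omega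
      rwa [h4] at h3
  refine ⟨J.min' hJ, ?_⟩
  have hc : (J.card : ℤ) = J.max' hJ + 1 - J.min' hJ := by
    have h1 := congrArg card hJeq
    rw [Int.card_Ico] at h1
    have := min'_le J _ (max'_mem J hJ)
    omega
  rw [hc]
  conv_lhs => rw [hJeq]
  congr 1
  ring

lemma bl_bounds {S : Finset (Fin d → ℤ)} (i : Fin d) {z : Fin d → ℤ} (hz : z ∈ S) :
    2 ≤ bl S i z ∧
      (bl S i z < 3 → ∃ c : ℤ, lineSet S i z = Ico c (c + (lineSet S i z).card)) := by
  have hne : (lineSet S i z).Nonempty := ⟨z i, mem_image.2 ⟨z, self_mem_cls hz, rfl⟩⟩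
  obtain ⟨h1, h2, h3⟩ := interval_of_few _ hne
  rw [bl_eq]
  have h1' : (1 : ℝ) ≤ (((lineSet S i z).filter fun t => t + 1 ∉ lineSet S i z).card : ℝ) := by
    exact_mod_cast h1
  have h2' : (1 : ℝ) ≤ (((lineSet S i z).filter fun t => t - 1 ∉ lineSet S i z).card : ℝ) := by
    exact_mod_cast h2
  refine ⟨by linarith, fun h => h3 ?_⟩
  have : (((lineSet S i z).filter fun t => t + 1 ∉ lineSet S i z).card : ℝ) < 2 := by linarith
  have h4 : ((lineSet S i z).filter fun t => t + 1 ∉ lineSet S i z).card < 2 := by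
    exact_mod_cast this
  omega

end Pool.Agent.IsoStab
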