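import Mathlib

open scoped symmDiff

namespace Pool.Agent.IsoStab

/-- The lattice graph on `ℤ^d`: `x` and `y` are adjacent when their `ℓ¹` distance is one. -/
def latticeGraph (d : ℕ) : SimpleGraph (Fin d → ℤ) where
  Adj x y := ∑ i, |x i - y i| = 1
  symm := ⟨fun x y h => by
    rw [← h]
    exact Finset.sum_congr rfl fun i _ => abs_sub_comm _ _⟩
  loopless := ⟨fun x h => by simp at h⟩

/-- The edge boundary of `S`: the edges of the lattice graph with exactly one endpoint in `S`. -/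
def edgeBoundary {d : ℕ} (S : Finset (Fin d → ℤ)) : Set (Sym2 (Fin d → ℤ)) :=
  {e | e ∈ (latticeGraph d).edgeSet ∧ ∃ x y, e = s(x, y) ∧ x ∈ S ∧ y ∉ S}

/-- The cube `a + {0, …, k-1}^d`. -/
noncomputable def cube {d : ℕ} (a : Fin d → ℤ) (k : ℕ) : Finset (Fin d → ℤ) :=
  Fintype.piFinset fun i => Finset.Ico (a i) (a i + k)

/-- Stability with factor `K`: every nonempty finite `S ⊂ ℤ^d` whose (finite) edge boundary has
at most `2 d |S|^((d-1)/d) (1+ε)` edges is within `K |S|` of some cube. -/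
def Stable (d : ℕ) (ε K : ℝ) : Prop :=
  ∀ S : Finset (Fin d → ℤ), S.Nonempty → (edgeBoundary S).Finite →
    ((edgeBoundary S).ncard : ℝ) ≤
      2 * (d : ℝ) * (S.card : ℝ) ^ (((d : ℝ) - 1) / (d : ℝ)) * (1 + ε) →
    ∃ (a : Fin d → ℤ) (k : ℕ), 1 ≤ k ∧ ((S ∆ cube a k).card : ℝ) ≤ K * (S.card : ℝ)

end Pool.Agent.IsoStab
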