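import Pool.Agent.P.MP_5333ad_co.Defs

/-! Counting form of Han type entropy inequalities for a finite subset of the lattice. -/

open Finset

namespace Pool.Agent.IsoStab

variable {d : ℕ}

/-- Points of `S` that agree with `x` outside the coordinate set `T`. -/
def cls (S : Finset (Fin d → ℤ)) (T : Finset (Fin d)) (x : Fin d → ℤ) : Finset (Fin d → ℤ) :=
  S.filter fun y => ∀ j, j ∉ T → y j = x j

/-- The size of the class as a real number. -/
noncomputable def g (S : Finset (Fin d → ℤ)) (T : Finset (Fin d)) (x : Fin d → ℤ) : ℝ :=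
  ((cls S T x).card : ℝ)

lemma mem_cls {S : Finset (Fin d → ℤ)} {T : Finset (Fin d)} {x y : Fin d → ℤ} :
    y ∈ cls S T x ↔ y ∈ S ∧ ∀ j, j ∉ T → y j = x j := by
  simp [cls]

lemma self_mem_cls {S : Finset (Fin d → ℤ)} {T : Finset (Fin d)} {x : Fin d → ℤ} (hx : x ∈ S) :
    x ∈ cls S T x := mem_cls.2 ⟨hx, fun _ _ => rfl⟩

lemma one_le_g {S : Finset (Fin d → ℤ)} {T : Finset (Fin d)} {x : Fin d → ℤ} (hx : x ∈ S) :
    1 ≤ g S T x := by
  unfold g
  exact_mod_cast card_pos.2 ⟨x, self_mem_cls hx⟩

lemma g_pos {S : Finset (Fin d → ℤ)} {T : Finset (Fin d)} {x : Fin d → ℤ} (hx : x ∈ S) :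
    0 < g S T x := lt_of_lt_of_le one_pos (one_le_g hx)

lemma cls_congr {S : Finset (Fin d → ℤ)} {T : Finset (Fin d)} {x z : Fin d → ℤ}
    (h : ∀ j, j ∉ T → x j = z j) : cls S T x = cls S T z := by
  ext y
  simp only [mem_cls]
  constructor
  · rintro ⟨h1, h2⟩
    exact ⟨h1, fun j hj => (h2 j hj).trans (h j hj)⟩
  · rintro ⟨h1, h2⟩
    exact ⟨h1, fun j hj => (h2 j hj).trans (h j hj).symm⟩

lemma g_congr {S : Finset (Fin d → ℤ)} {T : Finset (Fin d)} {x z : Fin d → ℤ}
    (h : ∀ j, j ∉ T → x j = z j) : g S T x = g S T z := by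
  unfold g
  rw [cls_congr h]

lemma g_univ (S : Finset (Fin d → ℤ)) (x : Fin d → ℤ) : g S univ x = S.card := by
  unfold g cls
  simp

/-- Double counting over the classes. -/
lemma swap_sum (S : Finset (Fin d → ℤ)) (U : Finset (Fin d)) (h : (Fin d → ℤ) → ℝ) :
    ∑ x ∈ S, g S U x * h x = ∑ z ∈ S, ∑ x ∈ cls S U z, h x := by
  have h1 : ∀ z, ∑ x ∈ cls S U z, h x =
      ∑ x ∈ S, if (∀ j, j ∉ U → x j = z j) then h x else 0 := fun z => by
    unfold cls
    rw [sum_filter]
  simp_rw [h1]
  rw [sum_comm]
  refine sum_congr rfl fun x _ => ?_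
  rw [← sum_filter, sum_const, nsmul_eq_mul]
  unfold g cls
  congr 2
  refine congrArg card ?_
  ext z
  simp only [mem_filter]
  constructor
  · rintro ⟨h1, h2⟩
    exact ⟨h1, fun j hj => (h2 j hj).symm⟩
  · rintro ⟨h1, h2⟩
    exact ⟨h1, fun j hj => (h2 j hj).symm⟩

/-- Classes of different points of a line in a direction outside `T` are disjoint. -/
lemma sum_g_le {S : Finset (Fin d → ℤ)} {T : Finset (Fin d)} {j : Fin d} (hj : j ∉ T)
    (z : Fin d → ℤ) (W : Finset (Fin d → ℤ))
    (hW : ∀ x ∈ cls S {j} z, cls S T x ⊆ W) :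
    ∑ x ∈ cls S {j} z, g S T x ≤ W.card := by
  unfold g
  have hd : ((cls S {j} z : Finset (Fin d → ℤ)) : Set (Fin d → ℤ)).PairwiseDisjoint
      (fun x => cls S T x) := by
    intro x hx x' hx' hne
    rw [Function.onFun, disjoint_left]
    intro y hy hy'
    apply hne
    funext k
    by_cases hk : k = j
    · subst hk
      exact ((mem_cls.1 hy).2 k hj).symm.trans ((mem_cls.1 hy').2 k hj)
    · have hk' : k ∉ ({j} : Finset (Fin d)) := by simpa using hk
      exact ((mem_cls.1 hx).2 k hk').trans ((mem_cls.1 hx').2 k hk').symm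
  have h1 := card_biUnion hd
  have h2 : ((cls S {j} z).biUnion fun x => cls S T x).card ≤ W.card :=
    card_le_card (biUnion_subset.2 hW)
  rw [h1] at h2
  exact_mod_cast h2

lemma step_sum {S : Finset (Fin d → ℤ)} {T : Finset (Fin d)} {j : Fin d} (hj : j ∉ T) :
    ∑ x ∈ S, g S {j} x * (g S T x / g S (insert j T) x) ≤ S.card := by
  rw [swap_sum]
  have h1 : ∀ z ∈ S, ∑ x ∈ cls S {j} z, g S T x / g S (insert j T) x ≤ 1 := by
    intro z hz
    have h2 : ∀ x ∈ cls S {j} z, g S T x / g S (insert j T) x =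
        g S T x / g S (insert j T) z := by
      intro x hx
      rw [g_congr (x := x) (z := z) (T := insert j T)]
      intro k hk
      refine (mem_cls.1 hx).2 k ?_
      intro hk'
      apply hk
      rw [mem_singleton.1 hk']
      exact mem_insert_self _ _
    rw [sum_congr rfl h2, ← sum_div, div_le_one (g_pos hz)]
    refine sum_g_le hj z _ ?_
    intro x hx y hy
    refine mem_cls.2 ⟨(mem_cls.1 hy).1, fun k hk => ?_⟩
    have hk1 : k ∉ T := fun h => hk (mem_insert_of_mem h)
    have hk2 : k ∉ ({j} : Finset (Fin d)) := by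
      intro h
      apply hk
      rw [mem_singleton.1 h]
      exact mem_insert_self _ _
    exact ((mem_cls.1 hy).2 k hk1).trans ((mem_cls.1 hx).2 k hk2)
  calc ∑ z ∈ S, ∑ x ∈ cls S {j} z, g S T x / g S (insert j T) x ≤ ∑ z ∈ S, (1 : ℝ) :=
        sum_le_sum h1
    _ = S.card := by simp

/-- Han type inequality. -/
lemma han (S : Finset (Fin d → ℤ)) (T : Finset (Fin d)) :
    ∑ j ∈ T, ∑ x ∈ S, Real.log (g S {j} x) ≤ ∑ x ∈ S, Real.log (g S T x) := by
  induction T using Finset.induction_on with
  | empty =>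
    rw [sum_empty]
    exact sum_nonneg fun x hx => Real.log_nonneg (one_le_g hx)
  | insert j T hj ih =>
    rw [sum_insert hj]
    have h1 : ∀ x ∈ S, Real.log (g S {j} x) + Real.log (g S T x) - Real.log (g S (insert j T) x)
        ≤ g S {j} x * (g S T x / g S (insert j T) x) - 1 := by
      intro x hx
      have a1 := g_pos (T := {j}) hx
      have a2 := g_pos (T := T) hx
      have a3 := g_pos (T := insert j T) hx
      have := Real.log_le_sub_one_of_pos (x := g S {j} x * (g S T x / g S (insert j T) x))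
        (by positivity)
      rw [Real.log_mul a1.ne' (by positivity), Real.log_div a2.ne' a3.ne'] at this
      linarith
    have h2 := sum_le_sum h1
    rw [sum_sub_distrib, sum_sub_distrib, sum_add_distrib] at h2
    have h3 := step_sum (S := S) hj
    simp only [sum_const, nsmul_eq_mul, mul_one] at h2
    linarith

/-- The set of values of the coordinate `i` on the line through `z` in direction `i`. -/
def lineSet (S : Finset (Fin d → ℤ)) (i : Fin d) (z : Fin d → ℤ) : Finset ℤ :=
  (cls S {i} z).image fun x => x i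

/-- The number of points of `S` whose coordinate `i` is not attained on that line. -/
noncomputable def outN (S : Finset (Fin d → ℤ)) (i : Fin d) (z : Fin d → ℤ) : ℝ :=
  ((S.filter fun y => y i ∉ lineSet S i z).card : ℝ)

lemma outN_nonneg (S : Finset (Fin d → ℤ)) (i : Fin d) (z : Fin d → ℤ) : 0 ≤ outN S i z := by
  unfold outN
  positivity

lemma out_add_le (S : Finset (Fin d → ℤ)) (i : Fin d) (z : Fin d → ℤ) :
    outN S i z + ∑ x ∈ cls S {i} z, g S (univ.erase i) x ≤ S.card := by
  have h1 := sum_g_le (S := S) (T := univ.erase i) (j := i) (by simp) z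
    (S.filter fun y => y i ∈ lineSet S i z) (by
      intro x hx y hy
      refine mem_filter.2 ⟨(mem_cls.1 hy).1, ?_⟩
      rw [(mem_cls.1 hy).2 i (by simp)]
      exact mem_image.2 ⟨x, hx, rfl⟩)
  have h2 := card_filter_add_card_filter_not (s := S) (fun y => y i ∈ lineSet S i z)
  have h3 : ((S.filter fun y => y i ∈ lineSet S i z).card : ℝ) + outN S i z = S.card := by
    unfold outN
    exact_mod_cast h2
  linarith

/-- The average mass missed by a random line is at most the dual total correlation. -/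
lemma out_sum_le {S : Finset (Fin d → ℤ)} (hS : S.Nonempty) (i : Fin d) :
    ∑ z ∈ S, outN S i z / S.card ≤
      S.card * Real.log S.card - ∑ j, ∑ x ∈ S, Real.log (g S {j} x) := by
  have hN : (0 : ℝ) < S.card := by exact_mod_cast card_pos.2 hS
  have h1 : ∀ x ∈ S, Real.log (g S {i} x) + Real.log (g S (univ.erase i) x) - Real.log S.card
      ≤ g S {i} x * (g S (univ.erase i) x / S.card) - 1 := by
    intro x hx
    have a1 := g_pos (T := {i}) hx
    have a2 := g_pos (T := univ.erase i) hx
    have := Real.log_le_sub_one_of_pos (x := g S {i} x * (g S (univ.erase i) x / S.card))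
      (by positivity)
    rw [Real.log_mul a1.ne' (by positivity), Real.log_div a2.ne' hN.ne'] at this
    linarith
  have h2 := sum_le_sum h1
  rw [sum_sub_distrib, sum_sub_distrib, sum_add_distrib, swap_sum] at h2
  simp only [sum_const, nsmul_eq_mul, mul_one] at h2
  have h3 : ∀ z ∈ S, outN S i z / S.card + ∑ x ∈ cls S {i} z, g S (univ.erase i) x / S.card
      ≤ 1 := by
    intro z _
    rw [← sum_div, ← add_div, div_le_one hN]
    exact out_add_le S i z
  have h4 := sum_le_sum h3
  rw [sum_add_distrib] at h4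
  simp only [sum_const, nsmul_eq_mul, mul_one] at h4
  have h5 := han S (univ.erase i)
  have h6 := add_sum_erase univ (fun j => ∑ x ∈ S, Real.log (g S {j} x)) (mem_univ i)
  linarith

lemma han_univ (S : Finset (Fin d → ℤ)) :
    ∑ j, ∑ x ∈ S, Real.log (g S {j} x) ≤ S.card * Real.log S.card := by
  have h := han S univ
  simp only [g_univ, sum_const, nsmul_eq_mul] at h
  exact h

end Pool.Agent.IsoStab
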