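import Pool.Agent.P.MP_5333ad_co.Upper

/-! Cuboids show that the leading constant is sharp. -/

open scoped symmDiff

namespace Pool.Agent.IsoStab

/-- The box with the given side lengths and a corner at the origin. -/
noncomputable def box {d : ℕ} (s : Fin d → ℕ) : Finset (Fin d → ℤ) :=
  Fintype.piFinset fun i => Finset.Ico (0 : ℤ) (s i)

lemma card_box {d : ℕ} (s : Fin d → ℕ) : (box s).card = ∏ i, s i := by
  simp [box, Fintype.card_piFinset]

lemma adj_cases {d : ℕ} {x y : Fin d → ℤ} (h : ∑ i, |x i - y i| = 1) :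
    ∃ i, y = Function.update x i (x i + 1) ∨ y = Function.update x i (x i - 1) := by
  classical
  have h1 : ∃ i, x i - y i ≠ 0 := by
    by_contra hc
    push Not at hc
    simp [hc] at h
  obtain ⟨i, hi⟩ := h1
  have hpos : 1 ≤ |x i - y i| := Int.one_le_abs hi
  have hsplit := Finset.add_sum_erase Finset.univ (fun j => |x j - y j|) (Finset.mem_univ i)
  have hnn : 0 ≤ ∑ j ∈ Finset.univ.erase i, |x j - y j| :=
    Finset.sum_nonneg fun j _ => abs_nonneg _
  have hz : ∑ j ∈ Finset.univ.erase i, |x j - y j| = 0 := by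
    omega
  have hone : |x i - y i| = 1 := by
    omega
  have hrest : ∀ j, j ≠ i → y j = x j := by
    intro j hj
    have := (Finset.sum_eq_zero_iff_of_nonneg (fun j _ => abs_nonneg (x j - y j))).1 hz j
      (Finset.mem_erase.2 ⟨hj, Finset.mem_univ j⟩)
    have := abs_eq_zero.1 this
    omega
  refine ⟨i, ?_⟩
  rcases abs_eq (by norm_num : (0 : ℤ) ≤ 1) |>.1 hone with h2 | h2
  · right
    funext j
    by_cases hj : j = i
    · subst hj
      simp
      omega
    · simp [Function.update_of_ne hj, hrest j hj]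
  · left
    funext j
    by_cases hj : j = i
    · subst hj
      simp
      omega
    · simp [Function.update_of_ne hj, hrest j hj]

/-- The face of the box on which coordinate `i` equals `c`. -/
noncomputable def face {d : ℕ} (s : Fin d → ℕ) (i : Fin d) (c : ℤ) : Finset (Fin d → ℤ) :=
  Fintype.piFinset (Function.update (fun j => Finset.Ico (0 : ℤ) (s j)) i {c})

lemma card_face {d : ℕ} (s : Fin d → ℕ) (i : Fin d) (c : ℤ) :
    (face s i c).card = ∏ j ∈ Finset.univ.erase i, s j := by
  classical
  rw [face, Fintype.card_piFinset,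
    ← Finset.mul_prod_erase Finset.univ _ (Finset.mem_univ i)]
  simp only [Function.update_self, Finset.card_singleton, one_mul]
  refine Finset.prod_congr rfl fun j hj => ?_
  rw [Function.update_of_ne (Finset.mem_erase.1 hj).1]
  simp

lemma mem_face {d : ℕ} {s : Fin d → ℕ} {i : Fin d} {c : ℤ} {x : Fin d → ℤ}
    (hx : x ∈ box s) (hc : x i = c) : x ∈ face s i c := by
  classical
  rw [box, Fintype.mem_piFinset] at hx
  rw [face, Fintype.mem_piFinset]
  intro j
  by_cases hj : j = i
  · subst hj
    simp [hc]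
  · rw [Function.update_of_ne hj]
    exact hx j

/-- A finite set of edges that contains the edge boundary of the box. -/
noncomputable def cover {d : ℕ} (s : Fin d → ℕ) : Finset (Sym2 (Fin d → ℤ)) :=
  Finset.univ.biUnion fun i =>
    (face s i (s i - 1)).image (fun x => s(x, Function.update x i (x i + 1))) ∪
      (face s i 0).image (fun x => s(x, Function.update x i (x i - 1)))

lemma boundary_subset {d : ℕ} (s : Fin d → ℕ) :
    edgeBoundary (box s) ⊆ (cover s : Set (Sym2 (Fin d → ℤ))) := by
  classical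
  rintro e ⟨he, x, y, rfl, hx, hy⟩
  rw [SimpleGraph.mem_edgeSet] at he
  obtain ⟨i, hi⟩ := adj_cases he
  have hx' := hx
  rw [box, Fintype.mem_piFinset] at hx'
  rw [box, Fintype.mem_piFinset] at hy
  simp only [cover, Finset.coe_biUnion, Finset.coe_univ, Set.mem_univ, Set.iUnion_true,
    Set.mem_iUnion, Finset.coe_union, Finset.coe_image, Set.mem_union, Set.mem_image,
    Finset.mem_coe]
  refine ⟨i, ?_⟩
  have hxi := Finset.mem_Ico.1 (hx' i)
  rcases hi with hi | hi
  · left
    refine ⟨x, mem_face hx ?_, by rw [hi]⟩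
    by_contra hne
    apply hy
    intro j
    by_cases hj : j = i
    · subst hj
      rw [hi, Function.update_self, Finset.mem_Ico]
      omega
    · rw [hi, Function.update_of_ne hj]
      exact hx' j
  · right
    refine ⟨x, mem_face hx ?_, by rw [hi]⟩
    by_contra hne
    apply hy
    intro j
    by_cases hj : j = i
    · subst hj
      rw [hi, Function.update_self, Finset.mem_Ico]
      omega
    · rw [hi, Function.update_of_ne hj]
      exact hx' j

lemma card_cover {d : ℕ} (s : Fin d → ℕ) :
    (cover s).card ≤ ∑ i, 2 * ∏ j ∈ Finset.univ.erase i, s j := by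
  classical
  refine Finset.card_biUnion_le.trans (Finset.sum_le_sum fun i _ => ?_)
  refine (Finset.card_union_le _ _).trans ?_
  have h1 := Finset.card_image_le (s := face s i (s i - 1))
    (f := fun x => s(x, Function.update x i (x i + 1)))
  have h2 := Finset.card_image_le (s := face s i 0)
    (f := fun x => s(x, Function.update x i (x i - 1)))
  rw [card_face] at h1 h2
  omega

lemma ncard_boundary_le {d : ℕ} (s : Fin d → ℕ) (hs : ∀ i, 0 < s i) :
    ((edgeBoundary (box s)).ncard : ℝ) ≤ 2 * ((box s).card : ℝ) * ∑ i, (1 / (s i : ℝ)) := by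
  classical
  have h1 : (edgeBoundary (box s)).ncard ≤ (cover s).card := by
    rw [← Set.ncard_coe_finset]
    exact Set.ncard_le_ncard (boundary_subset s) (Finset.finite_toSet _)
  have h2 : ((edgeBoundary (box s)).ncard : ℝ) ≤
      ((∑ i, 2 * ∏ j ∈ Finset.univ.erase i, s j : ℕ) : ℝ) := by
    exact_mod_cast h1.trans (card_cover s)
  refine h2.trans (le_of_eq ?_)
  rw [card_box, Finset.mul_sum]
  push_cast
  refine Finset.sum_congr rfl fun i _ => ?_
  rw [← Finset.mul_prod_erase Finset.univ (fun j => (s j : ℝ)) (Finset.mem_univ i)]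
  have : (s i : ℝ) ≠ 0 := by exact_mod_cast (hs i).ne'
  field_simp

open Finset

lemma sum_piece {d m : ℕ} (h : 2 * m ≤ d) (A B C : ℝ) :
    ∑ i : Fin d, (if (i : ℕ) < m then A else if (i : ℕ) < 2 * m then B else C) =
      m * A + m * B + (d - 2 * m) * C := by
  rw [Fin.sum_univ_eq_sum_range (fun k => if k < m then A else if k < 2 * m then B else C) d]
  obtain ⟨e, rfl⟩ := Nat.exists_eq_add_of_le h
  rw [two_mul, sum_range_add, sum_range_add]
  have h1 : ∑ k ∈ range m, (if k < m then A else if k < m + m then B else C) = m * A := by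
    rw [sum_congr rfl fun k hk => if_pos (mem_range.1 hk)]
    simp
  have h2 : ∑ k ∈ range m, (if m + k < m then A else if m + k < m + m then B else C) = m * B := by
    rw [sum_congr rfl (g := fun _ => B) fun k hk => by
      have := mem_range.1 hk
      rw [if_neg (by omega), if_pos (by omega)]]
    simp
  have h3 : ∑ k ∈ range e, (if m + m + k < m then A else if m + m + k < m + m then B else C) =
      e * C := by
    rw [sum_congr rfl (g := fun _ => C) fun k _ => by
      rw [if_neg (by omega), if_neg (by omega)]]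
    simp
  rw [h1, h2, h3]
  push_cast
  ring

lemma far_box {d : ℕ} (hd : 1 ≤ d) (s : Fin d → ℕ) (hs : ∀ i, 0 < s i) {T : ℝ} (hT0 : 0 ≤ T)
    (hT : ∀ x : ℝ, T ≤ ∑ i, |Real.log (s i) - Real.log (box s).card / d - x|)
    (b : Fin d → ℤ) (k : ℕ) (hk : 1 ≤ k) :
    (T - T ^ 2) * ((box s).card : ℝ) ≤ ((box s ∆ cube b k).card : ℝ) := by
  have hs' : ∀ i, (0 : ℝ) < s i := fun i => by exact_mod_cast hs i
  have hk' : (0 : ℝ) < k := by exact_mod_cast hk
  have hcard : ((box s).card : ℝ) = ∏ i, (s i : ℝ) := by
    rw [card_box]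
    push_cast
    rfl
  have hN : (0 : ℝ) < (box s).card := by
    rw [hcard]
    exact prod_pos fun i _ => hs' i
  set N : ℝ := ((box s).card : ℝ) with hNdef
  set t : Fin d → ℝ := fun i => Real.log (s i) - Real.log N / d with ht
  set x : ℝ := Real.log k - Real.log N / d with hx
  have ht0 : ∑ i, t i = 0 := by
    have h1 := prod_eq_exp hd hN _ hs'
    rw [← hcard] at h1
    have h2 : Real.exp (∑ i, t i) = 1 := by
      refine mul_left_cancel₀ hN.ne' ?_
      rw [mul_one]
      exact h1.symm
    exact Real.exp_eq_one_iff _ |>.1 h2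
  set α : ℝ := ∑ i, max (t i - x) 0 with hα
  set β : ℝ := ∑ i, max (x - t i) 0 with hβ
  have hα0 : 0 ≤ α := sum_nonneg fun i _ => le_max_right _ _
  have hβ0 : 0 ≤ β := sum_nonneg fun i _ => le_max_right _ _
  have hαβ : T ≤ α + β := by
    refine (hT x).trans (le_of_eq ?_)
    rw [hα, hβ, ← sum_add_distrib]
    refine sum_congr rfl fun i _ => ?_
    change |t i - x| = _
    rcases le_total (t i) x with h | h
    · rw [max_eq_right (by linarith), max_eq_left (by linarith), abs_of_nonpos (by linarith)]
      ring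
    · rw [max_eq_left (by linarith), max_eq_right (by linarith), abs_of_nonneg (by linarith)]
      ring
  have hC : ((cube b k).card : ℝ) = N * Real.exp (-α + β) := by
    have h1 : ((cube b k).card : ℝ) = ∏ _i : Fin d, (k : ℝ) := by
      simp [cube, Fintype.card_piFinset]
    rw [h1, prod_eq_exp hd hN _ fun _ => hk']
    congr 2
    have h2 : -α + β = ∑ i, (t i - max (t i - x) 0 + max (x - t i) 0) := by
      rw [sum_add_distrib, sum_sub_distrib, ht0]
      ring
    rw [h2]
    refine sum_congr rfl fun i _ => ?_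
    rcases le_total (t i) x with h | h
    · rw [max_eq_right (by linarith), max_eq_left (by linarith)]
      ring
    · rw [max_eq_left (by linarith), max_eq_right (by linarith)]
      ring
  have hI : ((box s ∩ cube b k).card : ℝ) ≤ N * Real.exp (-α) := by
    have h1 : box s ∩ cube b k ⊆
        Fintype.piFinset fun i => Ico (0 : ℤ) (s i) ∩ Ico (b i) (b i + k) := by
      intro y hy
      rw [mem_inter] at hy
      exact Fintype.mem_piFinset.2 fun i => mem_inter.2
        ⟨Fintype.mem_piFinset.1 hy.1 i, Fintype.mem_piFinset.1 hy.2 i⟩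
    have h2 : ((Fintype.piFinset fun i => Ico (0 : ℤ) (s i) ∩ Ico (b i) (b i + k)).card : ℝ) ≤
        ∏ i, min (s i : ℝ) k := by
      rw [Fintype.card_piFinset, Nat.cast_prod]
      refine prod_le_prod (fun i _ => Nat.cast_nonneg _) fun i _ => ?_
      rw [← Nat.cast_min]
      have a1 := card_le_card (inter_subset_left (s₁ := Ico (0 : ℤ) (s i))
        (s₂ := Ico (b i) (b i + k)))
      have a2 := card_le_card (inter_subset_right (s₁ := Ico (0 : ℤ) (s i))
        (s₂ := Ico (b i) (b i + k)))
      rw [Int.card_Ico] at a1 a2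
      exact_mod_cast le_min (by omega) (by omega)
    have h3 : ∏ i, min (s i : ℝ) k = N * Real.exp (-α) := by
      rw [prod_eq_exp hd hN _ fun i => lt_min (hs' i) hk']
      congr 2
      have h2 : -α = ∑ i, (t i - max (t i - x) 0) := by
        rw [sum_sub_distrib, ht0]
        ring
      rw [h2]
      refine sum_congr rfl fun i _ => ?_
      rcases le_total (s i : ℝ) k with h | h
      · have : t i ≤ x := by
          have := Real.log_le_log (hs' i) h
          simp only [ht, hx]
          linarith
        rw [min_eq_left h, max_eq_right (by linarith)]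
        simp only [ht]
        ring
      · have : x ≤ t i := by
          have := Real.log_le_log hk' h
          simp only [ht, hx]
          linarith
        rw [min_eq_right h, max_eq_left (by linarith)]
        ring
    rw [← h3]
    exact le_trans (by exact_mod_cast card_le_card h1) h2
  rw [card_symmDiff_eq, hC]
  have key : T - T ^ 2 ≤ 1 + Real.exp (-α + β) - 2 * Real.exp (-α) := by
    have e1 := Real.add_one_le_exp β
    have e2 := Real.add_one_le_exp α
    have e3 := Real.add_one_le_exp (-T)
    have e4 := Real.add_one_le_exp T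
    have p1 := Real.exp_pos (-α)
    have p2 := Real.exp_pos (-T)
    have m1 : Real.exp (-α) * Real.exp α = 1 := by rw [← Real.exp_add]; simp
    have m2 : Real.exp (-T) * Real.exp T = 1 := by rw [← Real.exp_add]; simp
    rw [Real.exp_add]
    have q1 : T - T ^ 2 ≤ T * Real.exp (-T) := by nlinarith
    rcases le_total α T with h | h
    · have q2 : Real.exp (-T) ≤ Real.exp (-α) := Real.exp_le_exp.2 (by linarith)
      nlinarith
    · have q2 : Real.exp (-α) ≤ Real.exp (-T) := Real.exp_le_exp.2 (by linarith)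
      nlinarith
  have := mul_le_mul_of_nonneg_right key hN.le
  linarith

/-- Side lengths `u²`, `w²` (each `m` times) and `u w` (the rest). -/
def side (d m u w : ℕ) : Fin d → ℕ := fun i =>
  if (i : ℕ) < m then u ^ 2 else if (i : ℕ) < 2 * m then w ^ 2 else u * w

lemma lower_box {d m : ℕ} (hd : 1 ≤ d) (hm : 2 * m ≤ d) {ε : ℝ} (w v : ℕ) (hw : 1 ≤ w)
    (h : (m : ℝ) * v ^ 2 ≤ d * ε * w ^ 2) (hε : 0 < ε) {K : ℝ} (hK : Stable d ε K) :
    2 * m * Real.log (1 + (v : ℝ) / w) - (2 * m * Real.log (1 + (v : ℝ) / w)) ^ 2 ≤ K ∧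
      0 ≤ K := by
  have hd0 : (0 : ℝ) < d := by exact_mod_cast hd
  have hw0 : (0 : ℝ) < w := by exact_mod_cast hw
  have hv0 : (0 : ℝ) ≤ v := Nat.cast_nonneg _
  have hm0 : (0 : ℝ) ≤ m := Nat.cast_nonneg _
  set u : ℕ := w + v with hu
  have hu' : (u : ℝ) = w + v := by rw [hu]; push_cast; ring
  have hu0 : (0 : ℝ) < u := by rw [hu']; positivity
  have hs : ∀ i, 0 < side d m u w i := fun i => by
    have : 0 < u := by omega
    unfold side
    split_ifs <;> positivity
  have hs' : ∀ i, (0 : ℝ) < side d m u w i := fun i => by exact_mod_cast hs i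
  have hF : ∀ F : ℝ → ℝ, ∑ i, F (side d m u w i) =
      m * F (u ^ 2) + m * F (w ^ 2) + (d - 2 * m) * F (u * w) := by
    intro F
    rw [← sum_piece hm]
    refine sum_congr rfl fun i _ => ?_
    unfold side
    split_ifs <;> simp
  have hcard : ((box (side d m u w)).card : ℝ) = ∏ i, (side d m u w i : ℝ) := by
    rw [card_box]
    push_cast
    rfl
  have hN : (0 : ℝ) < (box (side d m u w)).card := by
    rw [hcard]
    exact prod_pos fun i _ => hs' i
  have hlog : Real.log (box (side d m u w)).card / d = Real.log u + Real.log w := by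
    rw [hcard, Real.log_prod fun i _ => (hs' i).ne', hF Real.log, Real.log_pow, Real.log_pow,
      Real.log_mul hu0.ne' hw0.ne']
    field_simp
    push_cast
    ring
  have hy : Real.log (1 + (v : ℝ) / w) = Real.log u - Real.log w := by
    rw [← Real.log_div hu0.ne' hw0.ne', hu']
    congr 1
    field_simp
  have hy0 : 0 ≤ Real.log (1 + (v : ℝ) / w) :=
    Real.log_nonneg (by linarith [div_nonneg hv0 hw0.le])
  obtain ⟨b, k, hk, hle⟩ := hK (box (side d m u w)) (card_pos.1 (by exact_mod_cast hN))
    ((Finset.finite_toSet _).subset (boundary_subset _)) (by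
      refine (ncard_boundary_le _ hs).trans ?_
      set N : ℝ := ((box (side d m u w)).card : ℝ) with hNdef
      have ha : N ^ (((d : ℝ) - 1) / (d : ℝ)) = N / (u * w) := by
        rw [Real.rpow_def_of_pos hN]
        have : Real.log N * (((d : ℝ) - 1) / d) = Real.log N - Real.log N / d := by
          field_simp
        rw [this, hlog, Real.exp_sub, Real.exp_add, Real.exp_log hN, Real.exp_log hu0,
          Real.exp_log hw0]
      rw [ha, hF fun x => 1 / x]
      have h1 : (m : ℝ) * (1 / (u : ℝ) ^ 2) + m * (1 / (w : ℝ) ^ 2) +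
          (d - 2 * m) * (1 / ((u : ℝ) * w)) = (d + m * v ^ 2 / (u * w)) / (u * w) := by
        field_simp
        rw [hu']
        ring
      have h2 : (m : ℝ) * v ^ 2 / (u * w) ≤ d * ε := by
        rw [div_le_iff₀ (by positivity)]
        have : (w : ℝ) ^ 2 ≤ u * w := by rw [hu']; nlinarith
        have := mul_le_mul_of_nonneg_left this (by positivity : 0 ≤ (d : ℝ) * ε)
        linarith
      have h3 : 2 * (d : ℝ) * (N / (u * w)) * (1 + ε) = 2 * N * ((d + d * ε) / (u * w)) := by
        field_simp
      rw [h1, h3]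
      refine mul_le_mul_of_nonneg_left ?_ (by positivity)
      exact div_le_div_of_nonneg_right (by linarith) (by positivity))
  constructor
  · have h1 := far_box hd (side d m u w) hs
      (T := 2 * m * Real.log (1 + (v : ℝ) / w)) (by positivity) (by
        intro x
        rw [hlog, hF fun z => |Real.log z - (Real.log u + Real.log w) - x|, hy, Real.log_pow,
          Real.log_pow]
        have a1 := le_abs_self (((2 : ℕ) : ℝ) * Real.log u - (Real.log u + Real.log w) - x)
        have a2 := neg_abs_le (((2 : ℕ) : ℝ) * Real.log w - (Real.log u + Real.log w) - x)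
        have a3 : (0 : ℝ) ≤ (d - 2 * m) *
            |Real.log ((u : ℝ) * w) - (Real.log u + Real.log w) - x| := by
          refine mul_nonneg ?_ (abs_nonneg _)
          have : ((2 * m : ℕ) : ℝ) ≤ d := by exact_mod_cast hm
          push_cast at this
          linarith
        have a4 := mul_le_mul_of_nonneg_left a1 hm0
        have a5 := mul_le_mul_of_nonneg_left a2 hm0
        push_cast at a4 a5 ⊢
        linarith) b k hk
    exact le_of_mul_le_mul_right (h1.trans hle) hN
  · have h1 : (0 : ℝ) * (box (side d m u w)).card ≤ K * (box (side d m u w)).card := by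
      rw [zero_mul]
      exact le_trans (Nat.cast_nonneg _) hle
    exact le_of_mul_le_mul_right h1 hN

theorem lower {d : ℕ} (hd : 1 ≤ d) {ε : ℝ} (hε : 0 < ε) :
    ¬ Stable d ε (2 * Real.sqrt (d * ((d / 2 : ℕ) : ℝ) * ε) - 6 * (d * Real.sqrt ε) ^ 2) := by
  intro hK
  have hd0 : (0 : ℝ) < d := by exact_mod_cast hd
  set m : ℕ := d / 2 with hm
  have hm2 : 2 * m ≤ d := Nat.mul_div_le d 2
  have hm2' : 2 * (m : ℝ) ≤ d := by exact_mod_cast hm2
  have hse : 0 < Real.sqrt ε := Real.sqrt_pos.2 hε
  set η : ℝ := d * Real.sqrt ε with hη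
  have hη0 : 0 < η := by positivity
  have hη2 : η ^ 2 = d ^ 2 * ε := by rw [hη, mul_pow, Real.sq_sqrt hε.le]
  have hK0 := (lower_box hd hm2 1 0 le_rfl (by simp; positivity) hε hK).2
  set L : ℝ := 2 * Real.sqrt (d * m * ε) with hL
  have hL0 : 0 ≤ L := by positivity
  have hL2 : L ^ 2 = 4 * (d * m * ε) := by
    rw [hL, mul_pow, Real.sq_sqrt (by positivity)]
    norm_num
  have hm1 : 1 ≤ m := by
    by_contra hc
    have : m = 0 := by omega
    rw [this] at hL
    simp at hL
    nlinarith
  have hm0 : (0 : ℝ) < m := by exact_mod_cast hm1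
  have hLη : L ≤ 3 / 2 * η := by
    refine (pow_le_pow_iff_left₀ hL0 (by positivity) two_ne_zero).1 ?_
    rw [hL2, mul_pow, hη2]
    have := mul_le_mul_of_nonneg_left hm2' (by positivity : 0 ≤ (d : ℝ) * ε)
    nlinarith [mul_pos hd0 hε]
  have hη1 : η ≤ 1 / 4 := by nlinarith
  set τ : ℝ := L / (2 * m) with hτ
  have hLτ : L = 2 * m * τ := by rw [hτ]; field_simp
  have hτ2 : m * τ ^ 2 = d * ε := by
    have : (4 * m : ℝ) * (m * τ ^ 2) = 4 * m * (d * ε) := by
      have h1 : L ^ 2 = (2 * m * τ) ^ 2 := by rw [← hLτ]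
      nlinarith
    exact mul_left_cancel₀ (by positivity) this
  have hLpos : 0 < L := by nlinarith
  have hτ0 : 0 < τ := by positivity
  have hm1' : (1 : ℝ) ≤ m := by exact_mod_cast hm1
  have hτη : τ ≤ η := by nlinarith
  obtain ⟨w, hw⟩ := exists_nat_gt (1 / (τ * η))
  have hw0 : (0 : ℝ) < w := lt_trans (by positivity) hw
  have hw1 : 1 ≤ w := by exact_mod_cast hw0
  set v : ℕ := ⌊τ * w⌋₊ with hv
  have hv1 : (v : ℝ) ≤ τ * w := Nat.floor_le (by positivity)
  have hv2 : τ * w < v + 1 := Nat.lt_floor_add_one _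
  have hv0 : (0 : ℝ) ≤ v := Nat.cast_nonneg _
  have hbox := (lower_box hd hm2 w v hw1 (by
    have h1 : (v : ℝ) ^ 2 ≤ (τ * w) ^ 2 := pow_le_pow_left₀ hv0 hv1 2
    have h2 := mul_le_mul_of_nonneg_left h1 hm0.le
    rw [← hτ2]
    linarith) hε hK).1
  set p : ℝ := (v : ℝ) / w with hp
  have hp0 : 0 ≤ p := by positivity
  have hp1 : p ≤ τ := by rw [hp, div_le_iff₀ hw0]; exact hv1
  have hp2 : τ * (1 - η) ≤ p := by
    rw [hp, le_div_iff₀ hw0]
    rw [div_lt_iff₀ (by positivity)] at hw
    nlinarith
  set y : ℝ := Real.log (1 + p) with hy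
  have hy1 : y ≤ p := by
    have := Real.log_le_sub_one_of_pos (x := 1 + p) (by linarith)
    linarith
  have hy2 : p - p ^ 2 ≤ y := by
    have h1 := Real.one_sub_inv_le_log_of_pos (x := 1 + p) (by linarith)
    have h2 : (1 + p)⁻¹ ≤ 1 - p + p ^ 2 := by
      rw [inv_le_iff_one_le_mul₀ (by linarith)]
      nlinarith [pow_nonneg hp0 3]
    linarith
  have hy0 : 0 ≤ y := Real.log_nonneg (by linarith)
  have hy3 : τ * (1 - 2 * η) ≤ y := by nlinarith
  have hT1 : 2 * m * y ≤ L := by nlinarith
  have hT2 : L * (1 - 2 * η) ≤ 2 * m * y := by nlinarith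
  have hT0 : 0 ≤ 2 * m * y := by positivity
  have hT3 : (2 * m * y) ^ 2 ≤ (3 / 2 * η) ^ 2 := pow_le_pow_left₀ hT0 (by linarith) 2
  nlinarith

end Pool.Agent.IsoStab
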