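import Mathlib

/-! Elementary real inequalities for the sharp stability theorem. -/

open Finset

namespace Pool.Agent.IsoStab

lemma phi_nonneg (s : ℝ) : 0 ≤ Real.exp (-s) - 1 + s := by
  have := Real.add_one_le_exp (-s)
  linarith

lemma phi_tilt (s μ : ℝ) (hμ : 0 ≤ μ) : -μ ^ 2 ≤ Real.exp (-s) - 1 + s + μ * s := by
  have h1 : 0 < 1 + μ := by linarith
  have h2 := Real.add_one_le_exp (-s - Real.log (1 + μ))
  rw [Real.exp_sub, Real.exp_log h1, le_div_iff₀ h1] at h2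
  have h3 := Real.log_le_sub_one_of_pos h1
  nlinarith

lemma phi_three (s : ℝ) : 1 / 3 ≤ Real.exp (-s) * (3 / 2) - 1 + s := by
  have h2 := Real.add_one_le_exp (-s + Real.log (3 / 2))
  rw [Real.exp_add, Real.exp_log (by norm_num)] at h2
  have h3 := Real.one_sub_inv_le_log_of_pos (x := 3 / 2) (by norm_num)
  norm_num at h3
  linarith

lemma abs_le_one_of_phi {s : ℝ} (h : Real.exp (-s) - 1 + s < 1 / 3) : |s| ≤ 1 := by
  rw [abs_le]
  constructor
  · by_contra hc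
    push Not at hc
    have := Real.quadratic_le_exp_of_nonneg (x := -s) (by linarith)
    nlinarith
  · by_contra hc
    push Not at hc
    have h1 := Real.add_one_le_exp (1 - s)
    have h2 : Real.exp (-s) = Real.exp (-1) * Real.exp (1 - s) := by
      rw [← Real.exp_add]
      congr 1
      ring
    have h3 : 1 / 3 ≤ Real.exp (-1) := by
      have := Real.exp_neg_one_gt_d9
      linarith
    have h4 : Real.exp (-1) ≤ 1 := Real.exp_le_one_iff.2 (by norm_num)
    have h5 : Real.exp (-1) * (1 - s + 1) ≤ Real.exp (-s) := by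
      rw [h2]
      exact mul_le_mul_of_nonneg_left h1 (Real.exp_pos _).le
    nlinarith

lemma phi_cubic {s : ℝ} (h : |s| ≤ 1) :
    s ^ 2 / 2 - 2 / 9 * |s| ^ 3 ≤ Real.exp (-s) - 1 + s := by
  have h1 := Real.exp_bound (x := -s) (by rwa [abs_neg]) (n := 3) (by norm_num)
  rw [abs_neg] at h1
  simp only [sum_range_succ, sum_range_zero, Nat.factorial] at h1
  norm_num at h1
  have h2 := (abs_le.1 h1).1
  linarith

lemma sq_le_of_phi {s ξ r : ℝ} (hr0 : 0 ≤ r) (hr : r ≤ 1 / 2) (h : Real.exp (-s) - 1 + s ≤ ξ)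
    (hξ : ξ ≤ 5 / 2 * r ^ 4) : s ^ 2 ≤ 2 * ξ * (1 + 3 * r) := by
  have hr2 : r ^ 2 ≤ 1 / 4 := by nlinarith
  have hr4 : r ^ 4 ≤ 1 / 16 := by nlinarith
  have h1 : |s| ≤ 1 := abs_le_one_of_phi (by linarith)
  have h2 := phi_cubic h1
  have h0 := abs_nonneg s
  have hsq : |s| ^ 2 = s ^ 2 := sq_abs s
  have h3 : |s| ^ 3 ≤ s ^ 2 := by
    rw [← hsq]
    nlinarith [sq_nonneg |s|]
  have h4 : s ^ 2 ≤ (3 * r ^ 2) ^ 2 := by nlinarith
  have h5 : |s| ≤ 3 * r ^ 2 := by
    rw [← hsq] at h4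
    exact (pow_le_pow_iff_left₀ h0 (by positivity) two_ne_zero).1 h4
  have h6 : |s| ^ 3 ≤ 3 * r ^ 2 * s ^ 2 := by
    rw [← hsq]
    nlinarith [sq_nonneg |s|]
  have h7 : s ^ 2 * (1 - 4 / 3 * r ^ 2) ≤ 2 * ξ := by nlinarith
  have h8 : 1 ≤ (1 - 4 / 3 * r ^ 2) * (1 + 3 * r) := by nlinarith
  have h9 := mul_le_mul_of_nonneg_right h7 (by linarith : 0 ≤ 1 + 3 * r)
  nlinarith [sq_nonneg s]

/-- Consequences of the selection inequality. -/
lemma extract {d : ℕ} (hd : 1 ≤ d) {r : ℝ} (hr0 : 0 < r) (hr : r ≤ 1 / 2) (s ξ o : Fin d → ℝ)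
    (hξ : ∀ i, Real.exp (-s i) - 1 + s i ≤ ξ i) (ho : ∀ i, 0 ≤ o i)
    (hP : 1 - ∑ i, o i ≤ Real.exp (∑ i, s i))
    (hsel : ∑ i, (d * ξ i + r * s i + 3 * r * o i) ≤ r ^ 4 * (1 + 3 * r)) :
    (∀ i, ξ i < 1 / 3) ∧ ∑ i, o i ≤ 5 / 2 * r ^ 3 ∧ ∑ i, s i ≤ 5 / 2 * r ^ 3 ∧
      d * ∑ i, s i ^ 2 ≤ 2 * r ^ 4 * (1 + 3 * r) ^ 2 := by
  have hd' : (1 : ℝ) ≤ d := by exact_mod_cast hd
  have hd0 : (0 : ℝ) < d := by linarith
  have hξ0 : ∀ i, 0 ≤ ξ i := fun i => (phi_nonneg _).trans (hξ i)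
  have hO : 0 ≤ ∑ i, o i := sum_nonneg fun i _ => ho i
  have hX : 0 ≤ ∑ i, ξ i := sum_nonneg fun i _ => hξ0 i
  rw [sum_add_distrib, sum_add_distrib, ← mul_sum, ← mul_sum, ← mul_sum] at hsel
  have hr2 : r ^ 2 ≤ 1 / 4 := by nlinarith
  have hr3 : r ^ 3 ≤ 1 / 8 := by nlinarith
  have hr4 : r ^ 4 ≤ 1 / 16 := by nlinarith
  have htilt : -r ^ 2 ≤ d * ∑ i, ξ i + r * ∑ i, s i := by
    have h1 : ∀ i, -(r ^ 2 / d) ≤ d * ξ i + r * s i := by
      intro i
      have h2 := phi_tilt (s i) (r / d) (by positivity)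
      have h3 : -(r / d) ^ 2 ≤ ξ i + r / d * s i := by linarith [hξ i]
      have h4 := mul_le_mul_of_nonneg_left h3 hd0.le
      have h5 : (d : ℝ) * -(r / d) ^ 2 = -(r ^ 2 / d) := by field_simp
      have h6 : (d : ℝ) * (ξ i + r / d * s i) = d * ξ i + r * s i := by field_simp
      linarith
    have h2 := sum_le_sum fun i (_ : i ∈ univ) => h1 i
    rw [sum_add_distrib, ← mul_sum, ← mul_sum] at h2
    simp only [sum_const, card_univ, Fintype.card_fin, nsmul_eq_mul] at h2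
    have h3 : (d : ℝ) * -(r ^ 2 / d) = -r ^ 2 := by field_simp
    linarith
  set O := ∑ i, o i
  set P := ∑ i, s i
  set X := ∑ i, ξ i
  have hO1 : O ≤ 1 / 2 := by
    have h1 : r * (3 * O) ≤ r * (r + r ^ 3 * (1 + 3 * r)) := by nlinarith
    have h2 := le_of_mul_le_mul_left h1 hr0
    nlinarith
  have hPO : -(2 * O) ≤ P := by
    have h1 : 0 < 1 - O := by linarith
    have h2 := Real.log_le_log h1 hP
    rw [Real.log_exp] at h2
    have h3 := Real.one_sub_inv_le_log_of_pos h1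
    have h4 : (1 - O)⁻¹ ≤ 1 + 2 * O := by
      rw [inv_le_iff_one_le_mul₀ h1]
      nlinarith
    linarith
  have hdX : d * X ≤ r ^ 4 * (1 + 3 * r) := by nlinarith
  have hdX0 : 0 ≤ d * X := by positivity
  have hw : r ^ 3 * (1 + 3 * r) ≤ 5 / 2 * r ^ 3 := by nlinarith [pow_pos hr0 3]
  have hX1 : X ≤ 5 / 2 * r ^ 4 := by nlinarith [pow_pos hr0 4]
  have hξX : ∀ i, ξ i ≤ X := fun i => single_le_sum (fun j _ => hξ0 j) (mem_univ i)
  refine ⟨fun i => by linarith [hξX i], ?_, ?_, ?_⟩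
  · have h1 : r * O ≤ r * (r ^ 3 * (1 + 3 * r)) := by nlinarith
    have h2 := le_of_mul_le_mul_left h1 hr0
    linarith
  · have h1 : r * P ≤ r * (r ^ 3 * (1 + 3 * r)) := by nlinarith
    have h2 := le_of_mul_le_mul_left h1 hr0
    linarith
  · have h1 : ∑ i, s i ^ 2 ≤ ∑ i, 2 * ξ i * (1 + 3 * r) :=
      sum_le_sum fun i _ => sq_le_of_phi hr0.le hr (hξ i) ((hξX i).trans hX1)
    rw [← sum_mul, ← mul_sum] at h1
    have h2 := mul_le_mul_of_nonneg_left h1 hd0.le
    have h3 := mul_le_mul_of_nonneg_right hdX (by linarith : 0 ≤ 2 * (1 + 3 * r))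
    nlinarith

/-- The median lemma. -/
lemma median {d : ℕ} (hd : 1 ≤ d) (s : Fin d → ℝ) :
    ∃ j, (∑ i, |s i - s j|) ^ 2 ≤ 2 * ((d / 2 : ℕ) : ℝ) * ∑ i, s i ^ 2 := by
  set m := d / 2 with hm
  have hmd : m < d := by omega
  set σ := Tuple.sort s with hσ
  have hmono : Monotone (s ∘ σ) := Tuple.monotone_sort s
  set c : ℕ → ℝ := fun k => (if d - m ≤ k then 1 else 0) - (if k < m then 1 else 0) with hc
  have h1 : ∑ k ∈ range d, (if d - m ≤ k then (1 : ℝ) else 0) = m := by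
    rw [← sum_filter]
    have : (range d).filter (fun k => d - m ≤ k) = Ico (d - m) d := by
      ext k
      simp only [mem_filter, mem_range, mem_Ico]
      omega
    rw [this]
    simp only [sum_const, Nat.card_Ico, nsmul_eq_mul, mul_one]
    congr 1
    omega
  have h2 : ∑ k ∈ range d, (if k < m then (1 : ℝ) else 0) = m := by
    rw [← sum_filter]
    have : (range d).filter (fun k => k < m) = range m := by
      ext k
      simp only [mem_filter, mem_range]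
      omega
    rw [this]
    simp
  have hc0 : ∑ k : Fin d, c k = 0 := by
    rw [Fin.sum_univ_eq_sum_range c d, hc, sum_sub_distrib, h1, h2, sub_self]
  have hc2 : ∑ k : Fin d, c k ^ 2 = 2 * m := by
    rw [Fin.sum_univ_eq_sum_range (fun k => c k ^ 2) d]
    have : ∀ k ∈ range d, c k ^ 2 =
        (if d - m ≤ k then (1 : ℝ) else 0) + (if k < m then (1 : ℝ) else 0) := by
      intro k _
      simp only [hc]
      split_ifs with a b b
      · omega
      · norm_num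
      · norm_num
      · norm_num
    rw [sum_congr rfl this, sum_add_distrib, h1, h2]
    ring
  refine ⟨σ ⟨m, hmd⟩, ?_⟩
  have h3 : ∑ i, |s i - s (σ ⟨m, hmd⟩)| = ∑ k : Fin d, c k * s (σ k) := by
    rw [← Equiv.sum_comp σ]
    have : ∀ k : Fin d, |s (σ k) - s (σ ⟨m, hmd⟩)| = c k * s (σ k) - c k * s (σ ⟨m, hmd⟩) := by
      intro k
      simp only [hc]
      split_ifs with a b b
      · omega
      · have : s (σ ⟨m, hmd⟩) ≤ s (σ k) := hmono (by rw [Fin.le_def]; simp only; omega)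
        rw [abs_of_nonneg (by linarith)]
        ring
      · have : s (σ k) ≤ s (σ ⟨m, hmd⟩) := hmono (by rw [Fin.le_def]; simp only; omega)
        rw [abs_of_nonpos (by linarith)]
        ring
      · have : k = ⟨m, hmd⟩ := by
          ext
          simp only
          omega
        rw [this]
        simp
    rw [sum_congr rfl fun k _ => this k, sum_sub_distrib, ← sum_mul, hc0]
    ring
  rw [h3, ← hc2, ← Equiv.sum_comp σ (fun i => s i ^ 2)]
  exact sum_mul_sq_le_sq_mul_sq _ _ _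

end Pool.Agent.IsoStab
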