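import Pool.Agent.P.MP_5333ad_co.Bdry
import Pool.Agent.P.MP_5333ad_co.Real

/-! The upper bound with the sharp leading constant. -/

open Finset
open scoped symmDiff

namespace Pool.Agent.IsoStab

variable {d : ℕ}

/-- Logarithmic deviation of the length of a line from the ideal side length. -/
noncomputable def sv (S : Finset (Fin d → ℤ)) (i : Fin d) (z : Fin d → ℤ) : ℝ :=
  Real.log (g S {i} z) - Real.log S.card / d

/-- Local isoperimetric deficit of a line. -/
noncomputable def xi (S : Finset (Fin d → ℤ)) (i : Fin d) (z : Fin d → ℤ) : ℝ :=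
  Real.exp (-sv S i z) * (bl S i z / 2) - 1 + sv S i z

lemma phi_le_xi {S : Finset (Fin d → ℤ)} (i : Fin d) {z : Fin d → ℤ} (hz : z ∈ S) :
    Real.exp (-sv S i z) - 1 + sv S i z ≤ xi S i z := by
  unfold xi
  have h1 := (bl_bounds i hz).1
  have h2 := Real.exp_pos (-sv S i z)
  nlinarith

lemma interval_of_xi {S : Finset (Fin d → ℤ)} (i : Fin d) {z : Fin d → ℤ} (hz : z ∈ S)
    (h : xi S i z < 1 / 3) : ∃ c : ℤ, lineSet S i z = Ico c (c + (lineSet S i z).card) := by
  refine (bl_bounds i hz).2 ?_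
  by_contra hc
  push Not at hc
  have h1 := phi_three (sv S i z)
  have h2 := Real.exp_pos (-sv S i z)
  unfold xi at h
  nlinarith

lemma select (hd : 1 ≤ d) {S : Finset (Fin d → ℤ)} (hS : S.Nonempty)
    (hfin : (edgeBoundary S).Finite) {ε r : ℝ} (hr : 0 ≤ r) (hre : r ^ 4 = d ^ 2 * ε)
    (hb : ((edgeBoundary S).ncard : ℝ) ≤
      2 * (d : ℝ) * (S.card : ℝ) ^ (((d : ℝ) - 1) / (d : ℝ)) * (1 + ε)) :
    ∃ z : Fin d → (Fin d → ℤ), (∀ i, z i ∈ S) ∧
      ∑ i, (d * xi S i (z i) + r * sv S i (z i) + 3 * r * (outN S i (z i) / S.card)) ≤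
        r ^ 4 * (1 + 3 * r) := by
  have hN : (0 : ℝ) < S.card := by exact_mod_cast card_pos.2 hS
  have hd0 : (0 : ℝ) < d := by exact_mod_cast hd
  set N : ℝ := (S.card : ℝ) with hNdef
  set E : ℝ := N * Real.log N - ∑ j, ∑ x ∈ S, Real.log (g S {j} x) with hE
  have hE0 : 0 ≤ E := by
    have := han_univ S
    linarith
  have hsv : ∑ i, ∑ z ∈ S, sv S i z = -E := by
    unfold sv
    simp only [sum_sub_distrib, sum_const, nsmul_eq_mul, card_univ, Fintype.card_fin]
    rw [hE, ← hNdef]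
    field_simp
    ring
  have ha : Real.exp (Real.log N / d) * N ^ (((d : ℝ) - 1) / (d : ℝ)) = N := by
    rw [Real.rpow_def_of_pos hN, ← Real.exp_add]
    have : Real.log N / d + Real.log N * (((d : ℝ) - 1) / d) = Real.log N := by
      field_simp
      ring
    rw [this, Real.exp_log hN]
  have hxi : ∑ i, ∑ z ∈ S, xi S i z ≤ d * N * ε - E := by
    have h1 : ∀ i, ∑ z ∈ S, xi S i z =
        Real.exp (Real.log N / d) / 2 * ∑ x ∈ S, ed S i x - N + ∑ z ∈ S, sv S i z := by
      intro i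
      rw [← sum_bl_div, mul_sum]
      unfold xi
      rw [sum_add_distrib, sum_sub_distrib]
      simp only [sum_const, nsmul_eq_mul, mul_one]
      congr 2
      refine sum_congr rfl fun z hz => ?_
      have a1 := g_pos (T := {i}) hz
      unfold sv
      rw [neg_sub, Real.exp_sub, Real.exp_log a1, ← hNdef]
      field_simp
    rw [sum_congr rfl fun i _ => h1 i, sum_add_distrib, sum_sub_distrib, ← mul_sum, hsv]
    simp only [sum_const, nsmul_eq_mul, card_univ, Fintype.card_fin]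
    have h2 := (sum_ed_le S hfin).trans hb
    have h3 := mul_le_mul_of_nonneg_left h2
      (by positivity : 0 ≤ Real.exp (Real.log N / d) / 2)
    have h4 : Real.exp (Real.log N / d) / 2 *
        (2 * (d : ℝ) * N ^ (((d : ℝ) - 1) / (d : ℝ)) * (1 + ε)) = d * N * (1 + ε) := by
      linear_combination (d * (1 + ε)) * ha
    linarith
  have hxi0 : 0 ≤ ∑ i, ∑ z ∈ S, xi S i z :=
    sum_nonneg fun i _ => sum_nonneg fun z hz => (phi_nonneg _).trans (phi_le_xi i hz)
  have hout : ∑ i, ∑ z ∈ S, outN S i z / N ≤ d * (d * N * ε) := by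
    have h1 : ∀ i, ∑ z ∈ S, outN S i z / N ≤ d * N * ε := fun i => by
      have := out_sum_le hS i
      linarith
    have h2 := sum_le_sum fun i (_ : i ∈ univ) => h1 i
    simpa using h2
  set Ψ : Fin d → (Fin d → ℤ) → ℝ := fun i z =>
    d * xi S i z + r * sv S i z + 3 * r * (outN S i z / N) with hΨ
  have hmin : ∀ i, ∃ z ∈ S, N * Ψ i z ≤ ∑ y ∈ S, Ψ i y := by
    intro i
    obtain ⟨z, hz, hle⟩ := exists_min_image S (Ψ i) hS
    refine ⟨z, hz, ?_⟩
    have := card_nsmul_le_sum S (Ψ i) (Ψ i z) hle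
    rwa [nsmul_eq_mul] at this
  choose z hz hle using hmin
  refine ⟨z, hz, ?_⟩
  have h1 := sum_le_sum fun i (_ : i ∈ univ) => hle i
  rw [← mul_sum] at h1
  have h2 : ∑ i, ∑ y ∈ S, Ψ i y = d * ∑ i, ∑ z ∈ S, xi S i z + r * ∑ i, ∑ z ∈ S, sv S i z +
      3 * r * ∑ i, ∑ z ∈ S, outN S i z / N := by
    simp only [hΨ, sum_add_distrib, mul_sum]
  have h3 : ∑ i, ∑ y ∈ S, Ψ i y ≤ N * (r ^ 4 * (1 + 3 * r)) := by
    rw [h2, hsv, hre]
    have a1 := mul_le_mul_of_nonneg_left hxi hd0.le
    have a2 := mul_le_mul_of_nonneg_left hout (by positivity : 0 ≤ 3 * r)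
    have a3 := mul_nonneg hr hE0
    have a4 := mul_nonneg hd0.le hE0
    nlinarith
  exact le_of_mul_le_mul_left (h1.trans h3) hN

lemma card_symmDiff_eq {α : Type*} [DecidableEq α] (A B : Finset α) :
    ((A ∆ B).card : ℝ) = A.card + B.card - 2 * (A ∩ B).card := by
  have h1 : A ∆ B = (A \ B) ∪ (B \ A) := by
    ext x
    simp [mem_symmDiff]
  have h2 : Disjoint (A \ B) (B \ A) := disjoint_sdiff_sdiff
  have h3 := card_sdiff_add_card_inter A B
  have h4 := card_sdiff_add_card_inter B A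
  rw [inter_comm] at h4
  rw [h1, card_union_of_disjoint h2]
  have h3' : ((A \ B).card : ℝ) + (A ∩ B).card = A.card := by exact_mod_cast h3
  have h4' : ((B \ A).card : ℝ) + (A ∩ B).card = B.card := by exact_mod_cast h4
  push_cast
  linarith

lemma card_symmDiff_triangle {α : Type*} [DecidableEq α] (A B C : Finset α) :
    ((A ∆ C).card : ℝ) ≤ (A ∆ B).card + (B ∆ C).card := by
  have h1 : A ∆ C ⊆ A ∆ B ∪ B ∆ C := symmDiff_triangle A B C
  exact_mod_cast (card_le_card h1).trans (card_union_le _ _)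

lemma box_inter_ge (S : Finset (Fin d → ℤ)) (z : Fin d → (Fin d → ℤ)) :
    (S.card : ℝ) - ∑ i, outN S i (z i) ≤
      (S ∩ Fintype.piFinset fun i => lineSet S i (z i)).card := by
  classical
  have h1 : S ⊆ (S ∩ Fintype.piFinset fun i => lineSet S i (z i)) ∪
      univ.biUnion fun i => S.filter fun y => y i ∉ lineSet S i (z i) := by
    intro y hy
    by_cases h : y ∈ Fintype.piFinset fun i => lineSet S i (z i)
    · exact mem_union_left _ (mem_inter.2 ⟨hy, h⟩)
    · rw [Fintype.mem_piFinset] at h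
      push Not at h
      obtain ⟨i, hi⟩ := h
      exact mem_union_right _ (mem_biUnion.2 ⟨i, mem_univ _, mem_filter.2 ⟨hy, hi⟩⟩)
  have h2 := (card_le_card h1).trans ((card_union_le _ _).trans
    (Nat.add_le_add_left card_biUnion_le _))
  have h3 : (S.card : ℝ) ≤ (S ∩ Fintype.piFinset fun i => lineSet S i (z i)).card +
      ∑ i, outN S i (z i) := by
    unfold outN
    exact_mod_cast h2
  linarith

lemma prod_eq_exp (hd : 1 ≤ d) {N : ℝ} (hN : 0 < N) (f : Fin d → ℝ) (hf : ∀ i, 0 < f i) :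
    ∏ i, f i = N * Real.exp (∑ i, (Real.log (f i) - Real.log N / d)) := by
  have hd0 : (0 : ℝ) < d := by exact_mod_cast hd
  rw [sum_sub_distrib, Real.exp_sub, Real.exp_sum]
  simp only [sum_const, nsmul_eq_mul, card_univ, Fintype.card_fin]
  have h1 : (d : ℝ) * (Real.log N / d) = Real.log N := by field_simp
  rw [h1, Real.exp_log hN, prod_congr rfl fun i _ => Real.exp_log (hf i)]
  field_simp

lemma final_real {r L P O α β A : ℝ} (hr0 : 0 < r) (hr : r ≤ 1 / 2) (hL : L ≤ 3 / 2 * r ^ 2)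
    (hO : O ≤ 5 / 2 * r ^ 3) (hP : P ≤ 5 / 2 * r ^ 3) (hα : 0 ≤ α) (hβ : 0 ≤ β)
    (hA : α + β = A) (hAL : A ≤ L * (1 + 3 * r)) :
    (2 * O + Real.exp P - 1) + (Real.exp P + Real.exp (P - α + β) - 2 * Real.exp (P - α)) ≤
      L + 32 * r ^ 3 := by
  have hr2 : r ^ 2 ≤ 1 / 4 := by nlinarith
  have hr3 : r ^ 3 ≤ 1 / 8 := by nlinarith
  have hr30 : 0 < r ^ 3 := by positivity
  have hA1 : A ≤ L + 9 / 2 * r ^ 3 := by nlinarith
  have hA2 : A ≤ 15 / 4 * r ^ 2 := by nlinarith
  have hA0 : 0 ≤ A := by linarith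
  have hA3 : A ≤ 1 := by linarith
  have hA4 : A ^ 2 ≤ 15 / 2 * r ^ 3 := by nlinarith
  have hexp : ∀ x : ℝ, 0 ≤ x → x ≤ 1 → Real.exp x ≤ 1 + x + x ^ 2 := by
    intro x h0 h1
    have := Real.abs_exp_sub_one_sub_id_le (x := x) (by rw [abs_of_nonneg h0]; exact h1)
    have := (abs_le.1 this).2
    linarith
  have heP : Real.exp P ≤ 1 + 5 * r ^ 3 := by
    have h1 := Real.exp_le_exp.2 hP
    have h2 := hexp (5 / 2 * r ^ 3) (by positivity) (by linarith)
    nlinarith
  have h1 : Real.exp P + Real.exp (P - α + β) - 2 * Real.exp (P - α) =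
      Real.exp P * ((1 - Real.exp (-α)) + Real.exp (-α) * (Real.exp β - 1)) := by
    rw [Real.exp_add, sub_eq_add_neg P α, Real.exp_add]
    ring
  have h2 : 1 - Real.exp (-α) ≤ α := by linarith [Real.add_one_le_exp (-α)]
  have h3 : Real.exp (-α) ≤ 1 := Real.exp_le_one_iff.2 (by linarith)
  have h4 : 0 ≤ Real.exp β - 1 := by linarith [Real.add_one_le_exp β]
  have h5 : Real.exp β - 1 ≤ β + A ^ 2 := by
    have := hexp β hβ (by linarith)
    nlinarith
  have h6 : (1 - Real.exp (-α)) + Real.exp (-α) * (Real.exp β - 1) ≤ A + A ^ 2 := by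
    nlinarith [Real.exp_pos (-α)]
  have h7 : Real.exp P * ((1 - Real.exp (-α)) + Real.exp (-α) * (Real.exp β - 1)) ≤
      (1 + 5 * r ^ 3) * (A + A ^ 2) :=
    (mul_le_mul_of_nonneg_left h6 (Real.exp_pos P).le).trans
      (mul_le_mul_of_nonneg_right heP (by positivity))
  have h8 : A + A ^ 2 ≤ 2 := by nlinarith
  rw [h1]
  nlinarith

lemma stable_one (d : ℕ) (ε : ℝ) : Stable d ε 1 := by
  rintro S ⟨x, hx⟩ _ _
  refine ⟨x, 1, le_rfl, ?_⟩
  have h1 : S ∆ cube x 1 ⊆ S := by
    intro y hy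
    rcases mem_symmDiff.1 hy with h | h
    · exact h.1
    · have : y = x := by
        funext i
        have := Fintype.mem_piFinset.1 h.1 i
        rw [mem_Ico] at this
        push_cast at this
        omega
      exact this ▸ hx
  rw [one_mul]
  exact_mod_cast card_le_card h1

lemma upper_small (hd : 1 ≤ d) {ε r : ℝ} (hε : 0 < ε) (hr0 : 0 < r) (hr : r ≤ 1 / 2)
    (hre : r ^ 4 = d ^ 2 * ε) :
    Stable d ε (2 * Real.sqrt (d * ((d / 2 : ℕ) : ℝ) * ε) + 32 * r ^ 3) := by
  intro S hS hfin hb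
  have hN : (0 : ℝ) < S.card := by exact_mod_cast card_pos.2 hS
  have hd0 : (0 : ℝ) < d := by exact_mod_cast hd
  obtain ⟨z, hz, hsel⟩ := select hd hS hfin hr0.le hre hb
  set s : Fin d → ℝ := fun i => sv S i (z i) with hs
  set B := Fintype.piFinset fun i => lineSet S i (z i) with hB
  have hBcard : (B.card : ℝ) = S.card * Real.exp (∑ i, s i) := by
    rw [hB, Fintype.card_piFinset]
    push_cast
    rw [prod_congr rfl fun i _ => card_lineSet S i (z i),
      prod_eq_exp hd hN _ fun i => g_pos (hz i)]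
    rfl
  have hSB := box_inter_ge S z
  rw [← hB] at hSB
  have hO : ∑ i, outN S i (z i) = S.card * ∑ i, outN S i (z i) / S.card := by
    rw [← sum_div]
    field_simp
  have hP : 1 - ∑ i, outN S i (z i) / S.card ≤ Real.exp (∑ i, s i) := by
    have h1 : ((S ∩ B).card : ℝ) ≤ B.card := by exact_mod_cast card_le_card inter_subset_right
    rw [hBcard] at h1
    rw [hO] at hSB
    refine le_of_mul_le_mul_left ?_ hN
    linarith
  obtain ⟨e1, e2, e3, e4⟩ := extract hd hr0 hr s (fun i => xi S i (z i))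
    (fun i => outN S i (z i) / S.card) (fun i => phi_le_xi i (hz i))
    (fun i => div_nonneg (outN_nonneg _ _ _) hN.le) hP hsel
  choose c hc using fun i => interval_of_xi i (hz i) (e1 i)
  obtain ⟨j, hj⟩ := median hd s
  set n : Fin d → ℕ := fun i => (lineSet S i (z i)).card with hn
  have hng : ∀ i, (n i : ℝ) = g S {i} (z i) := fun i => card_lineSet S i (z i)
  have hn0 : ∀ i, (0 : ℝ) < n i := fun i => by
    rw [hng]
    exact g_pos (hz i)
  have hsn : ∀ i, Real.log (n i) - Real.log S.card / d = s i := fun i => by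
    rw [hng]
    rfl
  refine ⟨c, n j, by exact_mod_cast hn0 j, ?_⟩
  set α : ℝ := ∑ i, max (s i - s j) 0 with hα
  set β : ℝ := ∑ i, max (s j - s i) 0 with hβ
  have hαβ : α + β = ∑ i, |s i - s j| := by
    rw [hα, hβ, ← sum_add_distrib]
    refine sum_congr rfl fun i _ => ?_
    rcases le_total (s i) (s j) with h | h
    · rw [max_eq_right (by linarith), max_eq_left (by linarith), abs_of_nonpos (by linarith)]
      ring
    · rw [max_eq_left (by linarith), max_eq_right (by linarith), abs_of_nonneg (by linarith)]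
      ring
  have hC : ((cube c (n j)).card : ℝ) = S.card * Real.exp (∑ i, s i - α + β) := by
    have h1 : ((cube c (n j)).card : ℝ) = ∏ _i : Fin d, (n j : ℝ) := by
      simp [cube, Fintype.card_piFinset]
    rw [h1, prod_eq_exp hd hN _ fun _ => hn0 j, hα, hβ, ← sum_sub_distrib, ← sum_add_distrib]
    congr 2
    refine sum_congr rfl fun i _ => ?_
    rw [hsn]
    rcases le_total (s i) (s j) with h | h
    · rw [max_eq_right (by linarith), max_eq_left (by linarith)]
      ring
    · rw [max_eq_left (by linarith), max_eq_right (by linarith)]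
      ring
  have hBC : S.card * Real.exp (∑ i, s i - α) ≤ ((B ∩ cube c (n j)).card : ℝ) := by
    have h1 : (Fintype.piFinset fun i => Ico (c i) (c i + (min (n i) (n j) : ℕ))) ⊆
        B ∩ cube c (n j) := by
      intro y hy
      rw [Fintype.mem_piFinset] at hy
      refine mem_inter.2 ⟨Fintype.mem_piFinset.2 fun i => ?_, Fintype.mem_piFinset.2 fun i => ?_⟩
      · rw [hc i]
        have := mem_Ico.1 (hy i)
        have h2 : ((lineSet S i (z i)).card : ℤ) = n i := rfl
        rw [mem_Ico, h2]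
        omega
      · have := mem_Ico.1 (hy i)
        rw [mem_Ico]
        omega
    have h2 : ((Fintype.piFinset fun i => Ico (c i) (c i + (min (n i) (n j) : ℕ))).card : ℝ) =
        ∏ i, min (n i : ℝ) (n j) := by
      rw [Fintype.card_piFinset, Nat.cast_prod]
      refine prod_congr rfl fun i _ => ?_
      rw [Int.card_Ico, ← Nat.cast_min]
      congr 1
      omega
    have h3 : ∏ i, min (n i : ℝ) (n j) = S.card * Real.exp (∑ i, s i - α) := by
      rw [prod_eq_exp hd hN _ fun i => lt_min (hn0 i) (hn0 j), hα, ← sum_sub_distrib]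
      congr 2
      refine sum_congr rfl fun i _ => ?_
      rcases le_total (n i : ℝ) (n j) with h | h
      · have : s i ≤ s j := by
          rw [← hsn, ← hsn]
          linarith [Real.log_le_log (hn0 i) h]
        rw [min_eq_left h, hsn, max_eq_right (by linarith)]
        ring
      · have : s j ≤ s i := by
          rw [← hsn, ← hsn]
          linarith [Real.log_le_log (hn0 j) h]
        rw [min_eq_right h, hsn, max_eq_left (by linarith)]
        ring
    rw [← h3, ← h2]
    exact_mod_cast card_le_card h1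
  set m : ℝ := ((d / 2 : ℕ) : ℝ) with hm
  have hm0 : 0 ≤ m := Nat.cast_nonneg _
  have hm2 : 2 * m ≤ d := by
    rw [hm]
    exact_mod_cast Nat.mul_div_le d 2
  set L : ℝ := 2 * Real.sqrt (d * m * ε) with hL
  have hL0 : 0 ≤ L := by positivity
  have hL2 : L ^ 2 = 4 * (d * m * ε) := by
    rw [hL, mul_pow, Real.sq_sqrt (by positivity)]
    norm_num
  have hLr : L ≤ 3 / 2 * r ^ 2 := by
    refine (pow_le_pow_iff_left₀ hL0 (by positivity) two_ne_zero).1 ?_
    have h1 : (3 / 2 * r ^ 2) ^ 2 = 9 / 4 * (d ^ 2 * ε) := by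
      rw [← hre]
      ring
    rw [hL2, h1]
    have := mul_le_mul_of_nonneg_left hm2 (by positivity : 0 ≤ (d : ℝ) * ε)
    nlinarith [mul_pos hd0 hε]
  have hAL : ∑ i, |s i - s j| ≤ L * (1 + 3 * r) := by
    refine (pow_le_pow_iff_left₀ (sum_nonneg fun i _ => abs_nonneg _) (by positivity)
      two_ne_zero).1 ?_
    refine le_of_mul_le_mul_left ?_ hd0
    have h1 := mul_le_mul_of_nonneg_left hj hd0.le
    have h2 := mul_le_mul_of_nonneg_left e4 (by positivity : 0 ≤ 2 * m)
    have h3 : (d : ℝ) * (L * (1 + 3 * r)) ^ 2 = 2 * m * (2 * r ^ 4 * (1 + 3 * r) ^ 2) := by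
      rw [mul_pow, hL2, hre]
      ring
    rw [h3]
    linarith
  have hfinal := final_real hr0 hr hLr e2 e3 (sum_nonneg fun i _ => le_max_right _ _)
    (sum_nonneg fun i _ => le_max_right _ _) hαβ hAL
  have ht := card_symmDiff_triangle S B (cube c (n j))
  rw [card_symmDiff_eq S B, card_symmDiff_eq B, hBcard, hC] at ht
  rw [hO] at hSB
  have h9 := mul_le_mul_of_nonneg_left hfinal hN.le
  linarith

theorem upper (hd : 1 ≤ d) {ε : ℝ} (hε : 0 < ε) :
    Stable d ε (min 1 (2 * Real.sqrt (d * ((d / 2 : ℕ) : ℝ) * ε) +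
      32 * (d * Real.sqrt ε) ^ (3 / 2 : ℝ))) := by
  have hd0 : (0 : ℝ) < d := by exact_mod_cast hd
  have hη : 0 < d * Real.sqrt ε := mul_pos hd0 (Real.sqrt_pos.2 hε)
  set r : ℝ := Real.sqrt (d * Real.sqrt ε) with hrdef
  have hr0 : 0 < r := Real.sqrt_pos.2 hη
  have hr2 : r ^ 2 = d * Real.sqrt ε := Real.sq_sqrt hη.le
  have hr3 : (d * Real.sqrt ε) ^ (3 / 2 : ℝ) = r ^ 3 := by
    rw [← hr2, ← Real.rpow_natCast, ← Real.rpow_mul hr0.le, ← Real.rpow_natCast]
    norm_num
  have hr4 : r ^ 4 = d ^ 2 * ε := by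
    have : r ^ 4 = (r ^ 2) ^ 2 := by ring
    rw [this, hr2, mul_pow, Real.sq_sqrt hε.le]
  rw [hr3]
  rcases le_total r (1 / 2) with h | h
  · rcases min_choice 1 (2 * Real.sqrt (d * ((d / 2 : ℕ) : ℝ) * ε) + 32 * r ^ 3) with h1 | h1
    · rw [h1]
      exact stable_one d ε
    · rw [h1]
      exact upper_small hd hε hr0 h hr4
  · rw [min_eq_left]
    · exact stable_one d ε
    · have h1 : (1 / 2 : ℝ) ^ 3 ≤ r ^ 3 := pow_le_pow_left₀ (by norm_num) h 3
      have h2 := Real.sqrt_nonneg (d * ((d / 2 : ℕ) : ℝ) * ε)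
      linarith

end Pool.Agent.IsoStab
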